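import Pool.Agent.Lib_MP_ab8420_nt.Main

/-!
# Products of two primes as values of the prime counting function at multiples of all small numbers

For every `n` almost all products `m = p q` of two primes are of the form `m = π (k n)`; this holds
simultaneously for all `n ≤ δ log log M`, `m ≤ M`. In particular for every `n` there is a
`k ≤ exp (exp (C n))` such that `π (k n)` is a product of two primes.

Proof. If `p_(m+1) - p_m ≥ n` then some multiple of `n` lies in `[p_m, p_(m+1))`. By Selberg's upper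
bound for prime pairs (with the singular series summed over the differences) and by Chebyshev's
bounds at most `K L M / log M` of the `m ≤ M` have `p_(m+1) - p_m < L`, and there are at least
`c (M / log M) log log M` products of two primes up to `M`.
-/

set_option autoImplicit false

namespace Pool.Agent.Results.MP_ab8420_nt.AlmostPrimeValues

open Finset Filter Pool.Agent.MPab8420 Pool.Agent.MP2711

theorem pr_le : ∀ᶠ M : ℕ in atTop, pr (M + 1) ≤ M ^ 2 := by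
  obtain ⟨c, C', hc, hC', hch⟩ := cheb
  have hlo := (isLittleO_log_rpow_atTop (r := 1 / 2) (by norm_num)).bound (c := c / 2) (by positivity)
  have hlo2 := (tendsto_natCast_atTop_atTop (R := ℝ)).eventually hlo
  have h3 : Tendsto (fun M : ℕ => pr (M + 1)) atTop atTop :=
    tendsto_pr.comp (tendsto_add_atTop_nat 1)
  filter_upwards [h3.eventually hch, h3.eventually hlo2, eventually_ge_atTop 3] with M h1 h2 hM3
  obtain ⟨N, hN⟩ : ∃ N : ℕ, N = pr (M + 1) := ⟨_, rfl⟩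
  rw [← hN] at h1 h2 ⊢
  have hcard : ((Icc 1 N).filter Nat.Prime).card = M + 1 := by rw [hN]; exact card_pr (by omega)
  rw [hcard] at h1
  have hNM : M + 1 ≤ N := by rw [hN]; exact le_pr (by omega)
  have hNr : (4 : ℝ) ≤ N := by
    have : 4 ≤ N := by omega
    exact_mod_cast this
  have hlogN : 0 < Real.log N := Real.log_pos (by linarith)
  rw [Real.norm_eq_abs, abs_of_pos hlogN, ← Real.sqrt_eq_rpow, Real.norm_eq_abs,
    abs_of_nonneg (Real.sqrt_nonneg _)] at h2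
  have hs : 0 < Real.sqrt N := Real.sqrt_pos.2 (by linarith)
  have hss : Real.sqrt N * Real.sqrt N = N := Real.mul_self_sqrt (by linarith)
  have h4 : 2 * Real.sqrt N ≤ c * N / Real.log N := by
    rw [le_div_iff₀ hlogN]
    nlinarith
  have h5 : 2 * Real.sqrt N ≤ M + 1 := by
    have := h1.1
    push_cast at this
    linarith
  have hMr : (3 : ℝ) ≤ M := by exact_mod_cast hM3
  have h6 : (N : ℝ) ≤ (M : ℝ) ^ 2 := by nlinarith
  exact_mod_cast h6

open scoped Classical in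
theorem part_a (ε : ℝ) (hε : 0 < ε) : ∃ δ : ℝ, 0 < δ ∧ ∀ᶠ M : ℕ in atTop,
    (1 - ε) * (((Icc 1 M).filter (fun m => ∃ p q : ℕ, p.Prime ∧ q.Prime ∧ p < q ∧
      m = p * q)).card : ℝ) ≤
    (((Icc 1 M).filter (fun m => (∃ p q : ℕ, p.Prime ∧ q.Prime ∧ p < q ∧ m = p * q) ∧
      ∀ n : ℕ, 1 ≤ n → (n : ℝ) ≤ δ * Real.log (Real.log M) →
        ∃ k : ℕ, 1 ≤ k ∧ k * n ≤ M ^ 2 ∧ Nat.primeCounting (k * n) = m)).card : ℝ) := by
  obtain ⟨K, hK, hbad⟩ := bad_bound
  obtain ⟨c, hc, hsemi⟩ := semi_count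
  have t1 : Tendsto (fun M : ℕ => Real.log (Real.log (M : ℝ))) atTop atTop :=
    Real.tendsto_log_atTop.comp (Real.tendsto_log_atTop.comp tendsto_natCast_atTop_atTop)
  refine ⟨c * ε / K, by positivity, ?_⟩
  filter_upwards [hbad, hsemi, pr_le, t1.eventually_ge_atTop 0, eventually_ge_atTop 3] with
    M h1 h2 h3 h4 hM3
  have hMr : (3 : ℝ) ≤ M := by exact_mod_cast hM3
  have hlogM : 0 < Real.log M := Real.log_pos (by linarith)
  have hq : (0 : ℝ) ≤ M / Real.log M := by positivity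
  obtain ⟨L, hL⟩ : ∃ L : ℕ, L = ⌊c * ε / K * Real.log (Real.log M)⌋₊ := ⟨_, rfl⟩
  have hL1 : (L : ℝ) ≤ c * ε / K * Real.log (Real.log M) := by
    rw [hL]
    exact Nat.floor_le (by positivity)
  have h5 : (((Icc 1 M).filter (fun m => ¬ pr m + L ≤ pr (m + 1))).card : ℝ) ≤
      ε * (((Icc 1 M).filter (fun m => ∃ p q : ℕ, p.Prime ∧ q.Prime ∧ p < q ∧
      m = p * q)).card : ℝ) := by
    calc (((Icc 1 M).filter (fun m => ¬ pr m + L ≤ pr (m + 1))).card : ℝ)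
        ≤ K * L * (M / Real.log M) := h1 L
      _ ≤ K * (c * ε / K * Real.log (Real.log M)) * (M / Real.log M) := by
          apply mul_le_mul_of_nonneg_right (mul_le_mul_of_nonneg_left hL1 hK.le) hq
      _ = ε * (c * Real.log (Real.log M) * (M / Real.log M)) := by
          field_simp
      _ ≤ _ := mul_le_mul_of_nonneg_left h2 hε.le
  have h6 : ((Icc 1 M).filter (fun m => ∃ p q : ℕ, p.Prime ∧ q.Prime ∧ p < q ∧
          m = p * q)).card ≤
      ((Icc 1 M).filter (fun m => (∃ p q : ℕ, p.Prime ∧ q.Prime ∧ p < q ∧ m = p * q) ∧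
        ∀ n : ℕ, 1 ≤ n → (n : ℝ) ≤ c * ε / K * Real.log (Real.log M) →
        ∃ k : ℕ, 1 ≤ k ∧ k * n ≤ M ^ 2 ∧ Nat.primeCounting (k * n) = m)).card +
      ((Icc 1 M).filter (fun m => ¬ pr m + L ≤ pr (m + 1))).card := by
    refine le_trans (card_le_card ?_) (card_union_le _ _)
    intro m hm
    rw [mem_filter, mem_Icc] at hm
    rw [mem_union, mem_filter, mem_filter, mem_Icc]
    by_cases h : pr m + L ≤ pr (m + 1)
    · refine Or.inl ⟨hm.1, hm.2, fun n hn hnL => ?_⟩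
      have hnL' : n ≤ L := by rw [hL]; exact Nat.le_floor hnL
      obtain ⟨k, hk1, hk2, hk3⟩ := multiples hm.1.1 h hn hnL'
      exact ⟨k, hk1, (hk2.le.trans (pr_mono (by omega))).trans h3, hk3⟩
    · exact Or.inr ⟨hm.1, h⟩
  have h7 : (((Icc 1 M).filter (fun m => ∃ p q : ℕ, p.Prime ∧ q.Prime ∧ p < q ∧
          m = p * q)).card : ℝ) ≤
      (((Icc 1 M).filter (fun m => (∃ p q : ℕ, p.Prime ∧ q.Prime ∧ p < q ∧ m = p * q) ∧
        ∀ n : ℕ, 1 ≤ n → (n : ℝ) ≤ c * ε / K * Real.log (Real.log M) →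
        ∃ k : ℕ, 1 ≤ k ∧ k * n ≤ M ^ 2 ∧ Nat.primeCounting (k * n) = m)).card : ℝ) +
      (((Icc 1 M).filter (fun m => ¬ pr m + L ≤ pr (m + 1))).card : ℝ) := by exact_mod_cast h6
  linarith

theorem semi_set (M : ℕ) (Q : ℕ → Prop) [DecidablePred Q] (hQ : ∀ m, Q m → 1 ≤ m) :
    ({m : ℕ | m ≤ M ∧ Q m} : Set ℕ).ncard = ((Icc 1 M).filter Q).card := by
  rw [← Set.ncard_coe_finset]
  congr 1
  ext m
  rw [mem_coe, mem_filter, mem_Icc]
  exact ⟨fun h => ⟨⟨hQ m h.2, h.1⟩, h.2⟩, fun h => ⟨h.1.2, h.2⟩⟩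

theorem result :
    (∀ ε : ℝ, 0 < ε → ∃ δ : ℝ, 0 < δ ∧ ∀ᶠ M : ℕ in atTop,
      (1 - ε) * (({m : ℕ | m ≤ M ∧ ∃ p q : ℕ, p.Prime ∧ q.Prime ∧ p < q ∧ m = p * q} :
        Set ℕ).ncard : ℝ) ≤
      (({m : ℕ | m ≤ M ∧ (∃ p q : ℕ, p.Prime ∧ q.Prime ∧ p < q ∧ m = p * q) ∧
        ∀ n : ℕ, 1 ≤ n → (n : ℝ) ≤ δ * Real.log (Real.log M) →
          ∃ k : ℕ, 1 ≤ k ∧ k * n ≤ M ^ 2 ∧ Nat.primeCounting (k * n) = m} : Set ℕ).ncard : ℝ)) ∧
    ∃ C : ℝ, ∀ n : ℕ, 1 ≤ n → ∃ k p q : ℕ, 1 ≤ k ∧ (k : ℝ) ≤ Real.exp (Real.exp (C * n)) ∧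
      p.Prime ∧ q.Prime ∧ p < q ∧ Nat.primeCounting (k * n) = p * q := by
  classical
  have hpos : ∀ m : ℕ, (∃ p q : ℕ, p.Prime ∧ q.Prime ∧ p < q ∧ m = p * q) → 1 ≤ m := by
    rintro m ⟨p, q, hp, hq, -, rfl⟩
    exact Nat.mul_pos hp.pos hq.pos
  refine ⟨fun ε hε => ?_, ?_⟩
  · obtain ⟨δ, hδ, h⟩ := part_a ε hε
    refine ⟨δ, hδ, h.mono fun M hM => ?_⟩
    rw [semi_set M _ hpos, semi_set M _ (fun m hm => hpos m hm.1)]
    convert hM
  · obtain ⟨δ, hδ, h⟩ := part_a (1 / 2) (by norm_num)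
    obtain ⟨M₀, hM₀⟩ := eventually_atTop.1 h
    obtain ⟨B, hB⟩ : ∃ B : ℝ, B = 1 / δ + M₀ + 7 := ⟨_, rfl⟩
    have hδ' : 0 < 1 / δ := by positivity
    have hM₀' : (0 : ℝ) ≤ M₀ := Nat.cast_nonneg _
    refine ⟨B + 2, fun n hn => ?_⟩
    have hnr : (1 : ℝ) ≤ n := by exact_mod_cast hn
    have hBn : B ≤ B * n := by nlinarith
    obtain ⟨X, hX⟩ : ∃ X : ℝ, X = Real.exp (Real.exp (B * n)) := ⟨_, rfl⟩
    have hX1 : B * n ≤ Real.exp (B * n) := by linarith [Real.add_one_le_exp (B * n)]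
    have hX2 : Real.exp (B * n) ≤ X := by
      rw [hX]
      linarith [Real.add_one_le_exp (Real.exp (B * n))]
    obtain ⟨M, hM⟩ : ∃ M : ℕ, M = ⌈X⌉₊ := ⟨_, rfl⟩
    have hMX : X ≤ M := by rw [hM]; exact Nat.le_ceil _
    have hMX' : (M : ℝ) < X + 1 := by rw [hM]; exact Nat.ceil_lt_add_one (by linarith)
    have hMM : M₀ ≤ M ∧ 6 ≤ M := by
      constructor
      · have : (M₀ : ℝ) ≤ M := by linarith
        exact_mod_cast this
      · have : (6 : ℝ) ≤ M := by linarith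
        exact_mod_cast this
    have h1 := hM₀ M hMM.1
    have h2 : 0 < ((Icc 1 M).filter (fun m => ∃ p q : ℕ, p.Prime ∧ q.Prime ∧ p < q ∧
        m = p * q)).card := by
      rw [card_pos]
      exact ⟨6, mem_filter.2 ⟨mem_Icc.2 ⟨by omega, hMM.2⟩, 2, 3, by norm_num, by norm_num,
        by norm_num, by norm_num⟩⟩
    have h3 : (0 : ℝ) < (((Icc 1 M).filter (fun m => ∃ p q : ℕ, p.Prime ∧ q.Prime ∧ p < q ∧
        m = p * q)).card : ℝ) := by exact_mod_cast h2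
    have h4 : (0 : ℝ) < (((Icc 1 M).filter (fun m =>
        (∃ p q : ℕ, p.Prime ∧ q.Prime ∧ p < q ∧ m = p * q) ∧
        ∀ n : ℕ, 1 ≤ n → (n : ℝ) ≤ δ * Real.log (Real.log M) →
          ∃ k : ℕ, 1 ≤ k ∧ k * n ≤ M ^ 2 ∧ Nat.primeCounting (k * n) = m)).card : ℝ) :=
      lt_of_lt_of_le (by linarith) h1
    have h5 := card_pos.1 (by exact_mod_cast h4 : 0 < ((Icc 1 M).filter (fun m =>
        (∃ p q : ℕ, p.Prime ∧ q.Prime ∧ p < q ∧ m = p * q) ∧
        ∀ n : ℕ, 1 ≤ n → (n : ℝ) ≤ δ * Real.log (Real.log M) →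
          ∃ k : ℕ, 1 ≤ k ∧ k * n ≤ M ^ 2 ∧ Nat.primeCounting (k * n) = m)).card)
    obtain ⟨m, hm⟩ := h5
    obtain ⟨-, ⟨p, q, hp, hq, hpq, rfl⟩, h6⟩ := mem_filter.1 hm
    have h7 : (n : ℝ) ≤ δ * Real.log (Real.log M) := by
      have h8 : Real.exp (B * n) ≤ Real.log M := by
        rw [← Real.log_exp (Real.exp (B * n)), ← hX]
        exact Real.log_le_log (by rw [hX]; exact Real.exp_pos _) hMX
      have h9 : B * n ≤ Real.log (Real.log M) := by
        rw [← Real.log_exp (B * n)]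
        exact Real.log_le_log (Real.exp_pos _) h8
      have h10 : 1 / δ * n ≤ B * n := by
        apply mul_le_mul_of_nonneg_right _ (by linarith)
        linarith
      have h11 : δ * (1 / δ * n) ≤ δ * Real.log (Real.log M) :=
        mul_le_mul_of_nonneg_left (h10.trans h9) hδ.le
      have h12 : δ * (1 / δ * n) = n := by field_simp
      linarith
    obtain ⟨k, hk1, hk2, hk3⟩ := h6 n hn h7
    refine ⟨k, p, q, hk1, ?_, hp, hq, hpq, hk3⟩
    have h13 : (k : ℝ) ≤ (M : ℝ) ^ 2 := by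
      have : k ≤ M ^ 2 := (Nat.le_mul_of_pos_right _ (by omega)).trans hk2
      exact_mod_cast this
    have hX7 : 7 ≤ X := by linarith
    have h14 : (M : ℝ) ^ 2 ≤ X ^ 4 := by
      have h15 : (M : ℝ) ≤ X ^ 2 := by nlinarith
      have h16 : (0 : ℝ) ≤ M := Nat.cast_nonneg _
      calc (M : ℝ) ^ 2 ≤ (X ^ 2) ^ 2 := by gcongr
        _ = X ^ 4 := by ring
    have h17 : X ^ 4 ≤ Real.exp (Real.exp ((B + 2) * n)) := by
      rw [hX, ← Real.exp_nat_mul]
      apply Real.exp_le_exp.2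
      have h18 : (B + 2) * n = 2 * n + B * n := by ring
      rw [h18, Real.exp_add]
      apply mul_le_mul_of_nonneg_right _ (Real.exp_pos _).le
      have h19 := Real.add_one_le_exp (1 : ℝ)
      have h20 : Real.exp (2 : ℝ) ≤ Real.exp (2 * n) := Real.exp_le_exp.2 (by linarith)
      have h21 : Real.exp (2 : ℝ) = Real.exp 1 * Real.exp 1 := by rw [← Real.exp_add]; norm_num
      push_cast
      nlinarith
    linarith

end Pool.Agent.Results.MP_ab8420_nt.AlmostPrimeValues
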