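import Pool.Agent.Lib_MP_ab8420_nt.Main
import Pool.Agent.Lib_MP_ab8420_nt.Triple

/-!
# For almost all primes `q` one of `q`, `q + 1` is a value of the prime counting function at a
# multiple of `n`

For every `L` almost all primes `q` have the following property: `q` is of the form `π (k n)` for
every `n ≤ L`, or both `q - 1` and `q + 1` are of this form for every `n ≤ L`.

Proof. If `p_(m+1) - p_m ≥ n` then some multiple of `n` lies in `[p_m, p_(m+1))`. By the sieve bound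
for triples of primes with bounded differences, `p_(m+1) - p_m` and `p_(m+2) - p_(m+1)` are both less
than `L` for at most `O (M / (log M) ^ 2)` of the `m ≤ M`.
-/

set_option autoImplicit false

namespace Pool.Agent.Results.MP_ab8420_nt.NearPrimes

open Finset Filter Pool.Agent.MPab8420 Pool.Agent.MP2711

theorem two_gaps (L : ℕ) : ∃ D : ℝ, 0 < D ∧ ∀ᶠ M : ℕ in atTop,
    (((Icc 1 M).filter (fun m => ¬ pr m + L ≤ pr (m + 1) ∧ ¬ pr (m + 1) + L ≤ pr (m + 2))).card : ℝ) ≤
      D * (M / Real.log M / Real.log M) := by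
  classical
  obtain ⟨c, C', hc, hC', hch⟩ := cheb
  have hex : ∀ a b : ℕ, ∃ D : ℝ, 0 < D ∧ ∀ᶠ N : ℕ in atTop, 0 < a → 0 < b →
      (((Icc 1 N).filter (fun p => p.Prime ∧ (p + a).Prime ∧ (p + (a + b)).Prime)).card : ℝ) ≤
      D * (N / (Real.log N) ^ 3) := by
    intro a b
    by_cases h : 0 < a ∧ 0 < b
    · obtain ⟨D, hD, h2⟩ := triple a (a + b) h.1 (by omega)
      exact ⟨D, hD, h2.mono fun N hN _ _ => hN⟩
    · exact ⟨1, one_pos, Eventually.of_forall fun N h1 h2 => absurd ⟨h1, h2⟩ h⟩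
  choose D hD hev using hex
  have hall : ∀ᶠ N : ℕ in atTop, ∀ a ∈ Ico 1 L, ∀ b ∈ Ico 1 L,
      (((Icc 1 N).filter (fun p => p.Prime ∧ (p + a).Prime ∧ (p + (a + b)).Prime)).card : ℝ) ≤
      D a b * (N / (Real.log N) ^ 3) := by
    rw [Filter.eventually_all_finset]
    intro a ha
    rw [Filter.eventually_all_finset]
    intro b hb
    filter_upwards [hev a b] with N hN
    exact hN (mem_Ico.1 ha).1 (mem_Ico.1 hb).1
  obtain ⟨S, hS⟩ : ∃ S : ℝ, S = ∑ a ∈ Ico 1 L, ∑ b ∈ Ico 1 L, D a b := ⟨_, rfl⟩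
  have hS0 : 0 ≤ S := by
    rw [hS]
    exact Finset.sum_nonneg fun a _ => Finset.sum_nonneg fun b _ => (hD a b).le
  refine ⟨S / c + 1, by positivity, ?_⟩
  filter_upwards [tendsto_pr.eventually hch, tendsto_pr.eventually hall, eventually_ge_atTop 3] with
    M hM hall' hM3
  have hM1 : 1 ≤ M := by omega
  obtain ⟨N, hN⟩ : ∃ N : ℕ, N = pr M := ⟨_, rfl⟩
  rw [← hN] at hM hall'
  have hcard : ((Icc 1 N).filter Nat.Prime).card = M := by rw [hN]; exact card_pr hM1
  rw [hcard] at hM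
  have hNM : M ≤ N := by rw [hN]; exact le_pr hM1
  have hMr : (3 : ℝ) ≤ M := by exact_mod_cast hM3
  have hNMr : (M : ℝ) ≤ N := by exact_mod_cast hNM
  have hlogM : 0 < Real.log M := Real.log_pos (by linarith)
  have hlogN : Real.log M ≤ Real.log N := Real.log_le_log (by linarith) hNMr
  have hlogN0 : 0 < Real.log N := hlogM.trans_le hlogN
  have h1 : (N : ℝ) / Real.log N ≤ M / c := by
    rw [le_div_iff₀ hc]
    calc (N : ℝ) / Real.log N * c = c * N / Real.log N := by ring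
      _ ≤ M := hM.1
  obtain ⟨bad, hbad⟩ : ∃ bad : Finset ℕ, bad = (Icc 1 M).filter
      (fun m => ¬ pr m + L ≤ pr (m + 1) ∧ ¬ pr (m + 1) + L ≤ pr (m + 2)) := ⟨_, rfl⟩
  rw [← hbad]
  have hinj : Set.InjOn pr (bad : Set ℕ) := by
    intro a ha b hb hab
    rw [hbad, mem_coe, mem_filter, mem_Icc] at ha hb
    have := (Nat.nth_strictMono Nat.infinite_setOfPred_prime).injective hab
    omega
  have hsub : bad.image pr ⊆ (Ico 1 L ×ˢ Ico 1 L).biUnion
      (fun h => (Icc 1 N).filter (fun p => p.Prime ∧ (p + h.1).Prime ∧ (p + (h.1 + h.2)).Prime)) := by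
    intro p hp
    obtain ⟨m, hm, rfl⟩ := mem_image.1 hp
    rw [hbad] at hm
    obtain ⟨hm1, hm2, hm3⟩ := mem_filter.1 hm
    rw [mem_Icc] at hm1
    have hlt := pr_lt hm1.1
    have hlt2 := pr_lt (m := m + 1) (by omega)
    have e2 : m + 1 + 1 = m + 2 := rfl
    rw [e2] at hlt2
    rw [mem_biUnion]
    refine ⟨(pr (m + 1) - pr m, pr (m + 2) - pr (m + 1)), ?_, ?_⟩
    · rw [mem_product, mem_Ico, mem_Ico]
      simp only
      omega
    · rw [mem_filter, mem_Icc]
      refine ⟨⟨(pr_prime m).one_le, by rw [hN]; exact pr_mono hm1.2⟩, pr_prime m, ?_, ?_⟩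
      · simp only
        rw [Nat.add_sub_cancel' hlt.le]
        exact pr_prime _
      · simp only
        have e3 : pr m + (pr (m + 1) - pr m + (pr (m + 2) - pr (m + 1))) = pr (m + 2) := by omega
        rw [e3]
        exact pr_prime _
  have h2 : bad.card ≤ ∑ h ∈ Ico 1 L ×ˢ Ico 1 L,
      ((Icc 1 N).filter (fun p => p.Prime ∧ (p + h.1).Prime ∧ (p + (h.1 + h.2)).Prime)).card := by
    rw [← card_image_of_injOn hinj]
    exact (card_le_card hsub).trans card_biUnion_le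
  have h3 : (bad.card : ℝ) ≤ ∑ h ∈ Ico 1 L ×ˢ Ico 1 L,
      (((Icc 1 N).filter (fun p => p.Prime ∧ (p + h.1).Prime ∧ (p + (h.1 + h.2)).Prime)).card : ℝ) := by
    exact_mod_cast h2
  have hq : 0 ≤ (M : ℝ) / Real.log M / Real.log M := by positivity
  calc (bad.card : ℝ) ≤ ∑ h ∈ Ico 1 L ×ˢ Ico 1 L, D h.1 h.2 * (N / (Real.log N) ^ 3) := by
        refine h3.trans (Finset.sum_le_sum fun h hh => ?_)
        rw [mem_product] at hh
        exact hall' h.1 hh.1 h.2 hh.2
    _ = S * (N / Real.log N / Real.log N / Real.log N) := by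
        rw [← Finset.sum_mul, Finset.sum_product, ← hS]
        congr 1
        rw [div_div, div_div]
        congr 1
        ring
    _ ≤ S * (M / c / Real.log M / Real.log M) := by
        apply mul_le_mul_of_nonneg_left _ hS0
        exact div_le_div₀ (by positivity) (div_le_div₀ (by positivity) h1 hlogM hlogN) hlogM hlogN
    _ = S / c * (M / Real.log M / Real.log M) := by
        field_simp
    _ ≤ (S / c + 1) * (M / Real.log M / Real.log M) := by
        apply mul_le_mul_of_nonneg_right (by linarith) hq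

theorem set_card (M : ℕ) (Q : ℕ → Prop) [DecidablePred Q] (hQ : ∀ m, Q m → 1 ≤ m) :
    ({m : ℕ | m ≤ M ∧ Q m} : Set ℕ).ncard = ((Icc 1 M).filter Q).card := by
  rw [← Set.ncard_coe_finset]
  congr 1
  ext m
  rw [mem_coe, mem_filter, mem_Icc]
  exact ⟨fun h => ⟨⟨hQ m h.2, h.1⟩, h.2⟩, fun h => ⟨h.1.2, h.2⟩⟩

theorem result (L : ℕ) :
    Tendsto (fun M : ℕ =>
      (({q : ℕ | q ≤ M ∧ q.Prime ∧
        ((∀ n : ℕ, 1 ≤ n → n ≤ L → ∃ k : ℕ, 1 ≤ k ∧ Nat.primeCounting (k * n) = q) ∨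
          ((∀ n : ℕ, 1 ≤ n → n ≤ L → ∃ k : ℕ, 1 ≤ k ∧ Nat.primeCounting (k * n) = q - 1) ∧
            ∀ n : ℕ, 1 ≤ n → n ≤ L → ∃ k : ℕ, 1 ≤ k ∧ Nat.primeCounting (k * n) = q + 1))} :
        Set ℕ).ncard : ℝ) / (({q : ℕ | q ≤ M ∧ q.Prime} : Set ℕ).ncard : ℝ)) atTop (nhds 1) := by
  classical
  obtain ⟨D, hD, hgap⟩ := two_gaps L
  obtain ⟨c, C', hc, hC', hch⟩ := cheb
  have t2 : Tendsto (fun M : ℕ => Real.log (M : ℝ)) atTop atTop :=
    Real.tendsto_log_atTop.comp tendsto_natCast_atTop_atTop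
  have t3 : Tendsto (fun M : ℕ => 1 - 2 * D / c / Real.log (M : ℝ)) atTop (nhds (1 - 0)) :=
    tendsto_const_nhds.sub (Tendsto.div_atTop tendsto_const_nhds t2)
  rw [sub_zero] at t3
  let R : ℕ → Prop := fun q =>
    (∀ n : ℕ, 1 ≤ n → n ≤ L → ∃ k : ℕ, 1 ≤ k ∧ Nat.primeCounting (k * n) = q) ∨
      ((∀ n : ℕ, 1 ≤ n → n ≤ L → ∃ k : ℕ, 1 ≤ k ∧ Nat.primeCounting (k * n) = q - 1) ∧
        ∀ n : ℕ, 1 ≤ n → n ≤ L → ∃ k : ℕ, 1 ≤ k ∧ Nat.primeCounting (k * n) = q + 1)
  have hA : ∀ m : ℕ, 1 ≤ m → pr m + L ≤ pr (m + 1) →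
      ∀ n : ℕ, 1 ≤ n → n ≤ L → ∃ k : ℕ, 1 ≤ k ∧ Nat.primeCounting (k * n) = m := by
    intro m hm hg n hn hnL
    obtain ⟨k, hk1, -, hk3⟩ := multiples hm hg hn hnL
    exact ⟨k, hk1, hk3⟩
  have main : ∀ᶠ M : ℕ in atTop,
      1 - 2 * D / c / Real.log (M : ℝ) ≤ (({q : ℕ | q ≤ M ∧ q.Prime ∧ R q} : Set ℕ).ncard : ℝ) /
        (({q : ℕ | q ≤ M ∧ q.Prime} : Set ℕ).ncard : ℝ) ∧
      (({q : ℕ | q ≤ M ∧ q.Prime ∧ R q} : Set ℕ).ncard : ℝ) /
        (({q : ℕ | q ≤ M ∧ q.Prime} : Set ℕ).ncard : ℝ) ≤ 1 := by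
    filter_upwards [hgap, hch, eventually_ge_atTop 3] with M h1 h2 hM3
    rw [set_card M (fun q => q.Prime ∧ R q) (fun m hm => hm.1.one_le),
      set_card M Nat.Prime (fun m hm => hm.one_le)]
    have hMr : (3 : ℝ) ≤ M := by exact_mod_cast hM3
    have hlogM : 0 < Real.log M := Real.log_pos (by linarith)
    obtain ⟨B, hB⟩ : ∃ B : Finset ℕ, B = (Icc 1 M).filter
        (fun m => ¬ pr m + L ≤ pr (m + 1) ∧ ¬ pr (m + 1) + L ≤ pr (m + 2)) := ⟨_, rfl⟩
    rw [← hB] at h1
    have hsub : (Icc 1 M).filter Nat.Prime ⊆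
        (Icc 1 M).filter (fun q => q.Prime ∧ R q) ∪ (B ∪ B.image (fun m => m + 1)) := by
      intro q hq
      rw [mem_filter, mem_Icc] at hq
      have hq2 := hq.2.two_le
      rw [mem_union, mem_union, mem_filter, mem_Icc, mem_image]
      by_cases hR : R q
      · exact Or.inl ⟨hq.1, hq.2, hR⟩
      · right
        have g1 : ¬ pr q + L ≤ pr (q + 1) := fun h => hR (Or.inl (hA q hq.1.1 h))
        by_cases g2 : pr (q - 1) + L ≤ pr (q - 1 + 1)
        · by_cases g3 : pr (q + 1) + L ≤ pr (q + 2)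
          · exact absurd (Or.inr ⟨hA (q - 1) (by omega) g2, hA (q + 1) (by omega) g3⟩) hR
          · left
            rw [hB, mem_filter, mem_Icc]
            exact ⟨hq.1, g1, g3⟩
        · right
          refine ⟨q - 1, ?_, by omega⟩
          rw [hB, mem_filter, mem_Icc]
          have e1 : q - 1 + 1 = q := by omega
          have e2 : q - 1 + 2 = q + 1 := by omega
          rw [e2, e1]
          rw [e1] at g2
          exact ⟨⟨by omega, by omega⟩, g2, g1⟩
    have hcount : ((Icc 1 M).filter Nat.Prime).card ≤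
        ((Icc 1 M).filter (fun q => q.Prime ∧ R q)).card + (B.card + B.card) := by
      refine (card_le_card hsub).trans ((card_union_le _ _).trans ?_)
      have := card_union_le B (B.image (fun m => m + 1))
      have := card_image_le (s := B) (f := fun m => m + 1)
      omega
    have hcount' : (((Icc 1 M).filter Nat.Prime).card : ℝ) ≤
        (((Icc 1 M).filter (fun q => q.Prime ∧ R q)).card : ℝ) + (B.card + B.card) := by
      exact_mod_cast hcount
    have hle : ((Icc 1 M).filter (fun q => q.Prime ∧ R q)).card ≤ ((Icc 1 M).filter Nat.Prime).card := by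
      refine card_le_card fun q hq => ?_
      rw [mem_filter] at hq ⊢
      exact ⟨hq.1, hq.2.1⟩
    have hle' : (((Icc 1 M).filter (fun q => q.Prime ∧ R q)).card : ℝ) ≤
        (((Icc 1 M).filter Nat.Prime).card : ℝ) := by exact_mod_cast hle
    have hpi : 0 < c * M / Real.log M := by positivity
    have hpos : (0 : ℝ) < (((Icc 1 M).filter Nat.Prime).card : ℝ) := lt_of_lt_of_le hpi h2.1
    refine ⟨?_, (div_le_one hpos).2 hle'⟩
    rw [le_div_iff₀ hpos, sub_mul, one_mul]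
    have h3 : 2 * (D * (M / Real.log M / Real.log M)) ≤
        2 * D / c / Real.log M * (((Icc 1 M).filter Nat.Prime).card : ℝ) := by
      calc 2 * (D * (M / Real.log M / Real.log M)) = 2 * D / c / Real.log M * (c * M / Real.log M) := by
            field_simp
        _ ≤ _ := mul_le_mul_of_nonneg_left h2.1 (by positivity)
    linarith
  exact tendsto_of_tendsto_of_tendsto_of_le_of_le' t3 tendsto_const_nhds
    (main.mono fun M h => h.1) (main.mono fun M h => h.2)

end Pool.Agent.Results.MP_ab8420_nt.NearPrimes
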